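import Pool.Agent.SXF.Stmts

/-!
# Row CUT of the squad SXF
-/

set_option autoImplicit false

namespace Pool.Agent.SXF.H34

open Pool.Agent.SXF

/-- **Row CUT** -/
theorem cut : CutStmt := by
  classical
  intro n K k hk hkK
  -- the cut `r` is the number of `i < n` with `k i ≤ r`
  let c : Fin K → ℕ := fun r => ((Finset.range n).filter fun i => k i ≤ (r : ℕ)).card
  have hcle : ∀ r, c r ≤ n := fun r =>
    (Finset.card_filter_le _ _).trans (by simp)
  have hlow : ∀ (r : Fin K) (i : ℕ), i < n → (c r ≤ i ↔ (r : ℕ) < k i) := by
    intro r i hi
    constructor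
    · intro h
      by_contra hno
      push Not at hno
      have hsub : Finset.range (i + 1) ⊆ (Finset.range n).filter fun i => k i ≤ (r : ℕ) := by
        intro l hl
        rw [Finset.mem_range] at hl
        rw [Finset.mem_filter, Finset.mem_range]
        exact ⟨by omega, (hk (by omega : l ≤ i)).trans hno⟩
      have h1 := Finset.card_le_card hsub
      rw [Finset.card_range] at h1
      have h2 : c r = ((Finset.range n).filter fun i => k i ≤ (r : ℕ)).card := rfl
      omega
    · intro h
      have hsub : ((Finset.range n).filter fun i => k i ≤ (r : ℕ)) ⊆ Finset.range i := by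
        intro l hl
        rw [Finset.mem_filter, Finset.mem_range] at hl
        rw [Finset.mem_range]
        by_contra hno
        push Not at hno
        have := hk hno
        omega
      have h1 := Finset.card_le_card hsub
      rw [Finset.card_range] at h1
      exact h1
  refine ⟨c, hcle, ?_⟩
  intro i hi
  change (Finset.univ.filter fun r => c r ≤ i).card = k i
  have h1 : (Finset.univ.filter fun r : Fin K => c r ≤ i) =
      Finset.univ.filter fun r : Fin K => (r : ℕ) < k i := by
    ext r
    rw [Finset.mem_filter, Finset.mem_filter]
    exact and_congr_right fun _ => hlow r i hi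
  rw [h1]
  have h2 : (Finset.univ.filter fun r : Fin K => (r : ℕ) < k i).card =
      ((Finset.range K).filter fun r => r < k i).card := by
    rw [← Finset.card_map Fin.valEmbedding]
    congr 1
    ext r
    simp only [Finset.mem_map, Finset.mem_filter, Finset.mem_univ, true_and,
      Fin.valEmbedding_apply, Finset.mem_range]
    constructor
    · rintro ⟨x, hx, rfl⟩
      exact ⟨x.2, hx⟩
    · rintro ⟨h3, h4⟩
      exact ⟨⟨r, h3⟩, h4, rfl⟩
  rw [h2]
  have h3 : (Finset.range K).filter (fun r => r < k i) = Finset.range (k i) := by
    ext r
    rw [Finset.mem_filter, Finset.mem_range, Finset.mem_range]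
    have := hkK i
    constructor
    · exact fun h => h.2
    · exact fun h => ⟨by omega, h⟩
  rw [h3, Finset.card_range]

end Pool.Agent.SXF.H34
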