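import Mathlib
import Pool.Agent.SXF.Stmts
import Pool.Agent.Helper12_UO.Transfer

set_option autoImplicit false

/-! Small integer points on the generator. -/

namespace Pool.Agent.SXF.H34

open MvPolynomial Pool.Agent.Helper78_ACIT Pool.Agent.WBX Pool.Agent.SXF

theorem point_map {R S : Type} [CommRing R] [CommRing S] (φ : R →+* S) {K T : ℕ} (n : ℕ)
    (c : Fin K → ℕ) (ξ : Fin T → R) (y z : Fin (K + 1) → R) (i : ℕ) :
    φ (point n c ξ y z i) = point n c (fun j => φ (ξ j)) (fun B => φ (y B)) (fun B => φ (z B)) i := by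
  unfold point
  split_ifs
  · rw [map_add, map_sum]
    congr 1
    refine Finset.sum_congr rfl fun j _ => ?_
    rw [map_mul, map_pow, map_mul, map_add, map_natCast, map_one]
  · exact map_zero φ

/-- The variables of the generator. -/
abbrev V (K T : ℕ) : Type := Fin T ⊕ (Fin (K + 1) ⊕ Fin (K + 1))

theorem degreeOf_natCast_add_one {σ : Type} (s : σ) (i : ℕ) :
    degreeOf s ((i : MvPolynomial σ ℤ) + 1) = 0 := by
  have h : (i : MvPolynomial σ ℤ) + 1 = C ((i : ℤ) + 1) := by simp
  rw [h, degreeOf_C]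

theorem degreeOf_term {K T : ℕ} (i : ℕ) (B : Fin (K + 1)) (j : Fin T) (s : V K T) :
    degreeOf s ((X (Sum.inl j) : MvPolynomial (V K T) ℤ) *
      (((i : MvPolynomial (V K T) ℤ) + 1) * X (Sum.inr (Sum.inl B))) ^ (j : ℕ)) ≤ T := by
  classical
  refine (degreeOf_mul_le _ _ _).trans ?_
  have h1 : degreeOf s ((((i : MvPolynomial (V K T) ℤ) + 1) * X (Sum.inr (Sum.inl B))) ^ (j : ℕ)) ≤
      (j : ℕ) * degreeOf s (X (Sum.inr (Sum.inl B)) : MvPolynomial (V K T) ℤ) := by
    refine (degreeOf_pow_le _ _ _).trans (Nat.mul_le_mul_left _ ?_)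
    refine (degreeOf_mul_le _ _ _).trans ?_
    rw [degreeOf_natCast_add_one, zero_add]
  have hj := j.2
  rw [degreeOf_X] at h1
  rw [degreeOf_X]
  by_cases h2 : s = Sum.inl j
  · have h3 : s ≠ Sum.inr (Sum.inl B) := by
      rw [h2]
      simp
    rw [if_neg h3, Nat.mul_zero] at h1
    rw [if_pos h2]
    omega
  · rw [if_neg h2, zero_add]
    split_ifs at h1 <;> omega

theorem degreeOf_point {K T : ℕ} (hT : 1 ≤ T) (n : ℕ) (c : Fin K → ℕ) (i : ℕ) (s : V K T) :
    degreeOf s (point n c (fun j => (X (Sum.inl j) : MvPolynomial (V K T) ℤ))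
      (fun B => X (Sum.inr (Sum.inl B))) (fun B => X (Sum.inr (Sum.inr B))) i) ≤ T := by
  classical
  unfold point
  split_ifs
  · refine (degreeOf_add_le _ _ _).trans (max_le ?_ ?_)
    · rw [degreeOf_X]
      split_ifs <;> omega
    · refine (degreeOf_sum_le _ _ _).trans (Finset.sup_le fun j _ => ?_)
      exact degreeOf_term i _ j s
  · rw [degreeOf_zero]
    exact Nat.zero_le T

theorem iht : IhtStmt := by
  classical
  intro E _ _ n D K T P hD hT Q c h1 hdvd
  obtain ⟨ξ0, y0, z0, h1⟩ := h1
  obtain ⟨H, hH⟩ : ∃ H : MvPolynomial (V K T) ℤ, H = aeval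
    (point n c (fun j => (X (Sum.inl j) : MvPolynomial (V K T) ℤ))
      (fun B => X (Sum.inr (Sum.inl B))) (fun B => X (Sum.inr (Sum.inr B)))) P := ⟨_, rfl⟩
  have heval : ∀ x : V K T → ℤ, eval x H =
      eval (point n c (fun j => x (Sum.inl j)) (fun B => x (Sum.inr (Sum.inl B)))
        (fun B => x (Sum.inr (Sum.inr B)))) P := by
    intro x
    rw [hH]
    have h3 : (eval x).comp (aeval (R := ℤ)
        (point n c (fun j => (X (Sum.inl j) : MvPolynomial (V K T) ℤ))
          (fun B => X (Sum.inr (Sum.inl B))) (fun B => X (Sum.inr (Sum.inr B))))).toRingHom =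
        eval (point n c (fun j => x (Sum.inl j)) (fun B => x (Sum.inr (Sum.inl B)))
          (fun B => x (Sum.inr (Sum.inr B)))) := by
      apply MvPolynomial.ringHom_ext
      · intro a
        simp
      · intro i
        simp only [AlgHom.toRingHom_eq_coe, RingHom.coe_comp, RingHom.coe_coe,
          Function.comp_apply, aeval_X, eval_X]
        rw [point_map (eval x)]
        simp only [eval_X]
    exact RingHom.congr_fun h3 P
  have hHne : H ≠ 0 := by
    intro hH0
    apply h1
    obtain ⟨g, hg⟩ := hdvd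
    rw [hg, map_mul]
    have h3 : (eval (point n c ξ0 y0 z0)).comp (map (Int.castRingHom E)) =
        (eval₂Hom (Int.castRingHom E) (Sum.elim ξ0 (Sum.elim y0 z0))).comp (aeval (R := ℤ)
        (point n c (fun j => (X (Sum.inl j) : MvPolynomial (V K T) ℤ))
          (fun B => X (Sum.inr (Sum.inl B))) (fun B => X (Sum.inr (Sum.inr B))))).toRingHom := by
      apply MvPolynomial.ringHom_ext
      · intro a
        simp
      · intro i
        simp only [AlgHom.toRingHom_eq_coe, RingHom.coe_comp, RingHom.coe_coe,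
          Function.comp_apply, aeval_X, map_X, eval_X]
        rw [point_map (eval₂Hom (Int.castRingHom E) (Sum.elim ξ0 (Sum.elim y0 z0)))]
        simp only [coe_eval₂Hom, eval₂_X, Sum.elim_inl, Sum.elim_inr]
    have h4 := RingHom.congr_fun h3 P
    simp only [AlgHom.toRingHom_eq_coe, RingHom.coe_comp, RingHom.coe_coe,
      Function.comp_apply] at h4
    rw [h4, ← hH, hH0, map_zero, zero_mul]
  by_contra hcon
  push Not at hcon
  apply hHne
  apply eq_zero_of_eval_zero_at_prod_finset H
    (fun _ => (Finset.range (D * T + 1)).image (fun a : ℕ => (a : ℤ)))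
  · intro i
    rw [Finset.card_image_of_injective _ Nat.cast_injective, Finset.card_range, hH]
    refine Nat.lt_succ_of_le ?_
    rw [Nat.mul_comm D T]
    exact Pool.Agent.UO.degreeOf_aeval_le _ P T D i (fun j => degreeOf_point hT n c j i) hD
  · intro x hx
    have hx' : ∀ i, ∃ a : ℕ, a ≤ D * T ∧ (a : ℤ) = x i := by
      intro i
      obtain ⟨a, ha, ha'⟩ := Finset.mem_image.mp (hx i)
      exact ⟨a, Nat.lt_succ_iff.mp (Finset.mem_range.mp ha), ha'⟩
    choose a ha ha' using hx'
    rw [heval]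
    have := hcon (fun j => a (Sum.inl j)) (fun B => a (Sum.inr (Sum.inl B)))
      (fun B => a (Sum.inr (Sum.inr B))) (fun j => ha _) (fun B => ha _) (fun B => ha _)
    simpa only [ha'] using this

end Pool.Agent.SXF.H34
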