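import Pool.Agent.SXF.Stmts

/-!
# Row INJ of the squad SXF
-/

set_option autoImplicit false

namespace Pool.Agent.SXF.H34

open Pool.Agent.SXF

/-- **Row INJ** -/
theorem inj (hV : VdmStmt) : InjStmt := by
  classical
  intro K _ _ b T a ha ha1 V hVb p hp h0
  by_contra hne
  have hex : ∃ N : ℕ, ∃ j : Fin T, (j : ℕ) ≤ N ∧ (p j).coeff (N - j) ≠ 0 := by
    obtain ⟨j, hj⟩ : ∃ j, p j ≠ 0 := by
      by_contra hno
      push Not at hno
      exact hne (funext hno)
    obtain ⟨m, hm⟩ : ∃ m, (p j).coeff m ≠ 0 := by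
      by_contra hno
      push Not at hno
      exact hj (Polynomial.ext fun m => by rw [hno m, Polynomial.coeff_zero])
    refine ⟨m + j, j, Nat.le_add_left _ _, ?_⟩
    rwa [Nat.add_sub_cancel]
  obtain ⟨j1, hj1N, hj1⟩ := Nat.find_spec hex
  set N := Nat.find hex with hN
  have hmin : ∀ N' < N, ∀ j : Fin T, (j : ℕ) ≤ N' → (p j).coeff (N' - j) = 0 := by
    intro N' hN' j hj
    by_contra hc
    exact Nat.find_min hex hN' ⟨j, hj, hc⟩
  let u : Fin T → K := fun j => if (j : ℕ) ≤ N then (p j).coeff (N - j) else 0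
  let S : Finset (Fin T) := Finset.univ.filter fun j => u j ≠ 0
  have hSu : ∀ j, j ∉ S → u j = 0 := by
    intro j hj
    by_contra hc
    exact hj (Finset.mem_filter.mpr ⟨Finset.mem_univ j, hc⟩)
  have huN : ∀ j ∈ S, (j : ℕ) ≤ N ∧ (p j).coeff (N - j) ≠ 0 := by
    intro j hj
    have hj2 : u j ≠ 0 := (Finset.mem_filter.mp hj).2
    by_cases hle : (j : ℕ) ≤ N
    · refine ⟨hle, ?_⟩
      have e : u j = (p j).coeff (N - j) := if_pos hle
      rwa [e] at hj2
    · exact absurd (if_neg hle) hj2
  -- the coefficient vectors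
  let c : S → V := fun j => ⟨fun l => (p l).coeff (N - (j : Fin T)), hp _⟩
  have hzero : ∀ (j : S) (l : Fin T), (l : ℕ) < ((j : Fin T) : ℕ) → (c j : Fin T → K) l = 0 := by
    intro j l hl
    have hjN := (huN j.1 j.2).1
    have h1 : N - ((j : Fin T) : ℕ) = (N - ((j : Fin T) : ℕ) + l) - l := by omega
    change (p l).coeff (N - ((j : Fin T) : ℕ)) = 0
    rw [h1]
    exact hmin _ (by omega) l (by omega)
  have hli : LinearIndependent K c := by
    rw [linearIndependent_iff']
    intro s g hg
    by_contra hno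
    push Not at hno
    obtain ⟨j2, hj2s, hj2⟩ := hno
    let s' := s.filter fun j => g j ≠ 0
    have hs' : s'.Nonempty := ⟨j2, Finset.mem_filter.mpr ⟨hj2s, hj2⟩⟩
    obtain ⟨j0, hj0, hj0min⟩ := s'.exists_min_image (fun j => ((j : Fin T) : ℕ)) hs'
    have hj0s := (Finset.mem_filter.mp hj0).1
    have hj0g := (Finset.mem_filter.mp hj0).2
    have h1 := congrArg (fun v : V => (v : Fin T → K) (j0 : Fin T)) hg
    simp only [Submodule.coe_sum, Submodule.coe_smul, Finset.sum_apply, Pi.smul_apply,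
      smul_eq_mul, Submodule.coe_zero, Pi.zero_apply] at h1
    rw [Finset.sum_eq_single j0] at h1
    · rcases mul_eq_zero.mp h1 with h | h
      · exact hj0g h
      · exact (huN j0.1 j0.2).2 h
    · intro j hj hjne
      by_cases hgj : g j = 0
      · rw [hgj, zero_mul]
      · have h2 := hj0min j (Finset.mem_filter.mpr ⟨hj, hgj⟩)
        have h3 : ((j0 : Fin T) : ℕ) ≠ ((j : Fin T) : ℕ) := by
          intro h
          apply hjne
          exact (Subtype.ext (Fin.ext h)).symm
        rw [hzero j _ (lt_of_le_of_ne h2 h3), mul_zero]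
    · intro h; exact absurd hj0s h
  have hcard : S.card ≤ b := by
    have h1 := hli.fintype_card_le_finrank
    rw [Fintype.card_coe] at h1
    exact h1.trans hVb
  have hsum : ∀ i, ∑ j : Fin T, u j * (a i : K) ^ (j : ℕ) = 0 := by
    intro i
    have h1 := congrArg (fun q : Polynomial K => q.coeff N) (h0 i)
    simp only [Polynomial.finsetSum_coeff, Polynomial.coeff_zero] at h1
    rw [← h1]
    refine Finset.sum_congr rfl fun j _ => ?_
    have e1 : p j * (Polynomial.C (a i : K) * Polynomial.X) ^ (j : ℕ) =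
        Polynomial.C ((a i : K) ^ (j : ℕ)) * (p j * Polynomial.X ^ (j : ℕ)) := by
      rw [mul_pow, Polynomial.C_pow]
      ring
    rw [e1, Polynomial.coeff_C_mul, Polynomial.coeff_mul_X_pow']
    change (if (j : ℕ) ≤ N then (p j).coeff (N - j) else 0) * _ = _
    rw [mul_comm]
  have hu := hV K b T a ha ha1 u S hcard hSu hsum
  have h1 := congrFun hu j1
  have e : u j1 = (p j1).coeff (N - j1) := if_pos hj1N
  rw [e] at h1
  exact hj1 h1

end Pool.Agent.SXF.H34
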